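import Pool.Agent.Helper41.OP.Roots
import Pool.Agent.Helper73.KT.Part
import Pool.Agent.Helper73.HD.Pair
import Pool.Agent.Helper73.HD.Sums

/-!
# The residual eigenvalues of one part: all of them are simple
-/

open Module Polynomial

namespace Pool.Agent.Helper41.OP

open Pool.Agent.Helper73.KT Pool.Agent.Helper73.HD

section sum

variable {k K₀ K κ : Type} [Field k] [Field K₀] [Field K] [Algebra k K₀] [Algebra k K]
    [Algebra K₀ K] [IsScalarTower k K₀ K] [Finite K] [Field κ]

/-- the sum of the trace function, multiplied by the character, modulo `r` -/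
theorem residual_sum [Fintype Kˣ] {P : k[X]} (hP : Irreducible P) (hmon : P.Monic)
    (hP0 : P.coeff 0 ≠ 0) (hcop : (finrank k K₀).Coprime P.natDegree) (A : K → ℕ)
    (hA : ∀ t : K, t ≠ 0 → (aeval t P = 0 → (A t : κ) + 1 = 1) ∧
      (aeval t P ≠ 0 → (A t : κ) + 1 = 0))
    (hq : (Nat.card K : κ) ^ 2 = 1) (χ : K₀ˣ →* κ) :
    ∑ t : Kˣ, ((A t : κ) - (Nat.card K : κ)) * χ (Units.map (Algebra.norm K₀) t) =
      if P.natDegree ∣ finrank K₀ K then (P.natDegree : κ) *
        χ (Units.mk0 (algebraMap k K₀ ((-1) ^ P.natDegree * P.coeff 0)) (by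
          rw [Ne, map_eq_zero]
          exact mul_ne_zero (pow_ne_zero _ (by simp)) hP0)) ^ (finrank K₀ K / P.natDegree)
      else 0 := by
  classical
  have : Fintype K := Fintype.ofFinite K
  have h0 : algebraMap k K₀ ((-1) ^ P.natDegree * P.coeff 0) ≠ 0 := by
    rw [Ne, map_eq_zero]
    exact mul_ne_zero (pow_ne_zero _ (by simp)) hP0
  set u : K₀ˣ := Units.mk0 (algebraMap k K₀ ((-1) ^ P.natDegree * P.coeff 0)) h0 with hu
  -- the first sum
  have hsum1 : ∑ t : Kˣ, (-1 - (Nat.card K : κ)) * χ (Units.map (Algebra.norm K₀) t) = 0 := by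
    rw [← Finset.mul_sum]
    let g : Kˣ →* κ := χ.comp (Units.map (Algebra.norm K₀ (S := K)))
    have hg : ∑ t : Kˣ, χ (Units.map (Algebra.norm K₀) t) = ∑ t : Kˣ, g t := rfl
    rw [hg, sum_hom_units]
    split_ifs with h1
    · have h2 : Fintype.card Kˣ + 1 = Nat.card K := by
        rw [Fintype.card_eq_nat_card, Nat.card_units]
        have := Nat.card_pos (α := K)
        omega
      have h3 : (Fintype.card Kˣ : κ) = (Nat.card K : κ) - 1 := by
        rw [← h2]
        push_cast
        ring
      rw [h3]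
      linear_combination -hq
    · rw [Nat.cast_zero, mul_zero]
  -- the difference
  have hsum2 : ∑ t : Kˣ, ((A t : κ) - (Nat.card K : κ)) * χ (Units.map (Algebra.norm K₀) t) =
      ∑ t : Kˣ, (if aeval (t : K) P = 0 then χ (Units.map (Algebra.norm K₀) t) else 0) := by
    have hsub : ∑ t : Kˣ, ((A t : κ) - (Nat.card K : κ)) * χ (Units.map (Algebra.norm K₀) t) =
        ∑ t : Kˣ, ((A t : κ) - (Nat.card K : κ)) * χ (Units.map (Algebra.norm K₀) t) -
        ∑ t : Kˣ, (-1 - (Nat.card K : κ)) * χ (Units.map (Algebra.norm K₀) t) := by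
      rw [hsum1, sub_zero]
    rw [hsub, ← Finset.sum_sub_distrib]
    refine Finset.sum_congr rfl fun t _ => ?_
    obtain ⟨h1, h2⟩ := hA t t.ne_zero
    split_ifs with h
    · linear_combination χ (Units.map (Algebra.norm K₀) t) * h1 h
    · linear_combination χ (Units.map (Algebra.norm K₀) t) * h2 h
  rw [hsum2]
  split_ifs with hdvd
  · have hval : ∀ t : Kˣ, (if aeval (t : K) P = 0 then χ (Units.map (Algebra.norm K₀) t) else 0) =
        if aeval (t : K) P = 0 then χ u ^ (finrank K₀ K / P.natDegree) else 0 := by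
      intro t
      split_ifs with h
      · rw [← map_pow]
        congr 1
        apply Units.ext
        rw [Units.coe_map, Units.val_pow_eq_pow_val, hu, Units.val_mk0]
        exact norm_root hP hmon hcop h
      · rfl
    rw [Finset.sum_congr rfl fun t _ => hval t, ← Finset.sum_filter, Finset.sum_const, nsmul_eq_mul]
    congr 1
    have hcard : (Finset.univ.filter fun t : Kˣ => aeval (t : K) P = 0).card = P.natDegree := by
      have : Finite K₀ := Finite.of_injective _ (algebraMap K₀ K).injective
      have := finite_dim (k := k) (K := K₀)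
      have h1 : P.natDegree ∣ finrank k K := by
        rw [← finrank_mul_finrank k K₀ K]
        exact hdvd.mul_left _
      rw [← card_roots hP h1, ← Fintype.card_subtype, Fintype.card_eq_nat_card]
      refine Nat.card_congr (Equiv.ofBijective (fun t => ⟨(t.1 : K), t.2⟩) ⟨?_, ?_⟩)
      · intro s t hst
        apply Subtype.ext
        apply Units.ext
        exact congrArg Subtype.val hst
      · intro β
        have hβ : β.1 ≠ 0 := by
          intro h
          have h2 := β.2
          rw [h, ← Polynomial.coeff_zero_eq_aeval_zero'] at h2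
          rw [map_eq_zero] at h2
          exact hP0 h2
        exact ⟨⟨Units.mk0 β.1 hβ, β.2⟩, rfl⟩
    rw [hcard]
  · refine Finset.sum_eq_zero fun t _ => ?_
    rw [if_neg]
    intro h
    exact hdvd (dvd_rel hP hmon hcop h)

end sum

/-- the Hankel determinant -/
theorem hankel_ne {κ : Type} [Field κ] {D : ℕ} (hD : (D : κ) ≠ 0) {u : κ} (hu : u ≠ 0)
    (n : ℕ → κ) (hn : ∀ j, 0 < j → n j = if D ∣ j then (D : κ) * u ^ (j / D) else 0) :
    (Matrix.of fun i j : Fin D => n ((i : ℕ) + (j : ℕ) + 1)).det ≠ 0 := by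
  classical
  set M : Matrix (Fin D) (Fin D) κ := Matrix.of fun i j : Fin D => n ((i : ℕ) + (j : ℕ) + 1) with hM
  have hent : ∀ i j : Fin D, M i j = if (i : ℕ) + (j : ℕ) + 1 = D then (D : κ) * u else 0 := by
    intro i j
    rw [hM, Matrix.of_apply, hn _ (by omega)]
    have hDpos : 0 < D := lt_of_le_of_lt (Nat.zero_le _) i.2
    by_cases h : (i : ℕ) + (j : ℕ) + 1 = D
    · rw [if_pos (by rw [h]), if_pos h, h, Nat.div_self hDpos, pow_one]
    · rw [if_neg, if_neg h]
      rintro ⟨c, hc⟩
      have hi := i.2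
      have hj := j.2
      have hc2 : c < 2 := by
        by_contra hcon
        have : D * 2 ≤ D * c := Nat.mul_le_mul_left D (by omega)
        omega
      have hc1 : c ≠ 0 := by
        rintro rfl
        omega
      have : c = 1 := by omega
      rw [this, mul_one] at hc
      exact h hc
  have hsq : M * M = (((D : κ) * u) ^ 2) • (1 : Matrix (Fin D) (Fin D) κ) := by
    ext i j
    rw [Matrix.mul_apply, Matrix.smul_apply, Matrix.one_apply]
    have hi := i.2
    rw [Finset.sum_eq_single (⟨D - 1 - i, by omega⟩ : Fin D)]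
    · rw [hent, hent]
      by_cases h : i = j
      · rw [if_pos (by simp only; omega), if_pos (by rw [← h]; simp only; omega), if_pos h,
          smul_eq_mul, mul_one, pow_two]
      · have hne : (i : ℕ) ≠ (j : ℕ) := fun h' => h (Fin.ext h')
        have hj := j.2
        rw [if_pos (by simp only; omega), if_neg (by simp only; omega), if_neg h, mul_zero,
          smul_zero]
    · intro l _ hl
      rw [hent, if_neg, zero_mul]
      intro h
      apply hl
      apply Fin.ext
      simp only
      omega
    · intro h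
      exact absurd (Finset.mem_univ _) h
  intro hdet
  have h1 : (M * M).det = 0 := by rw [Matrix.det_mul, hdet, zero_mul]
  rw [hsq, Matrix.det_smul, Matrix.det_one, mul_one] at h1
  exact (pow_ne_zero _ (pow_ne_zero 2 (mul_ne_zero hD hu))) h1

/-- a residue field of characteristic `r` of the ring of algebraic integers -/
theorem exists_residue {L : Type} [Field L] [CharZero L] (r : ℕ) [Fact r.Prime] :
    ∃ (κ : Type) (_ : Field κ) (_ : CharP κ r), Nonempty (integralClosure ℤ L →+* κ) := by
  have hr : r.Prime := Fact.out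
  have h1 : NotDvd r (((1 : integralClosure ℤ L) : integralClosure ℤ L) : L) := by
    intro N hN
    have h2 : ((1 : integralClosure ℤ L) : L) = 1 := rfl
    rw [h2, one_pow] at hN
    have h3 : (1 : L) / (r : L) = algebraMap ℚ L (1 / (r : ℚ)) := by simp
    rw [h3, isIntegral_algebraMap_iff (algebraMap ℚ L).injective,
      IsIntegrallyClosed.isIntegral_iff] at hN
    obtain ⟨y, hy⟩ := hN
    have hr0 : (r : ℚ) ≠ 0 := Nat.cast_ne_zero.2 hr.ne_zero
    have h4 : (y : ℚ) * r = 1 := by
      have h5 : (y : ℚ) = 1 / (r : ℚ) := by simpa using hy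
      rw [h5]
      field_simp
    have h6 : y * (r : ℤ) = 1 := by exact_mod_cast h4
    have h7 : (r : ℤ) ∣ 1 := ⟨y, by rw [mul_comm]; exact h6.symm⟩
    have h8 : r ∣ 1 := by exact_mod_cast h7
    exact hr.one_lt.ne' (Nat.dvd_one.1 h8)
  obtain ⟨M, hM, hrM, -⟩ := exists_maximal h1
  let : Field (integralClosure ℤ L ⧸ M) := Ideal.Quotient.field M
  have hch : CharP (integralClosure ℤ L ⧸ M) r := by
    rw [CharP.charP_iff_prime_eq_zero hr]
    have := Ideal.Quotient.eq_zero_iff_mem.2 hrM
    rwa [map_natCast] at this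
  exact ⟨integralClosure ℤ L ⧸ M, this, hch, ⟨Ideal.Quotient.mk M⟩⟩

section part

variable {k L U : Type} [Field k] [Finite k] [Field L] [CharZero L] [IsAlgClosed L]
    [AddCommGroup U] [Module L U] [FiniteDimensional L U]

/-- all eigenvalues of one part are simple -/
theorem simple_part (r : ℕ) [Fact r.Prime] {P : k[X]} (hP : Irreducible P) (hmon : P.Monic)
    (hP0 : P.coeff 0 ≠ 0) (hrd : ¬ r ∣ P.natDegree) (hq : Nat.card k ^ 2 ≡ 1 [MOD r])
    {m : ℕ} (hm : 0 < m) (hcop : m.Coprime P.natDegree)
    (A : ∀ (K : Type) [Field K] [Algebra k K], K → ℕ)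
    (hA : ∀ (K : Type) [Field K] [Algebra k K] [Finite K] (t : K), t ≠ 0 →
      (aeval t P = 0 → A K t + 1 ≡ 1 [MOD r]) ∧ (aeval t P ≠ 0 → A K t + 1 ≡ 0 [MOD r]))
    (ψ : ∀ (K₀ : Type) [Field K₀] [Algebra k K₀], K₀ˣ →* Lˣ) (T : End L U)
    (hint : ∀ c ∈ eigs T, IsIntegral ℤ c) (hdim : finrank L U ≤ P.natDegree)
    (htr : ∀ (K₀ K : Type) [Field K₀] [Field K] [Algebra k K₀] [Algebra k K]
      [Algebra K₀ K] [IsScalarTower k K₀ K], finrank k K₀ = m → 0 < finrank K₀ K →
      LinearMap.trace L U (T ^ finrank K₀ K) = ∑ᶠ t : Kˣ,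
        ((A K t : L) - (Nat.card K : L)) * ((ψ K₀ (Units.map (Algebra.norm K₀) t) : Lˣ) : L))
    (c : L) : mult T c ≤ 1 := by
  classical
  obtain ⟨κ, _, _, ⟨φ⟩⟩ := exists_residue (L := L) r
  obtain ⟨K₀, _, _, hK₀⟩ := exists_field k hm
  have : Module.Finite k K₀ := Module.finite_of_finrank_pos (by rw [hK₀]; exact hm)
  have : Finite K₀ := Module.finite_of_finite k
  have hcop' : (finrank k K₀).Coprime P.natDegree := by rw [hK₀]; exact hcop
  -- the reduction of the character
  have hψint : ∀ x : K₀ˣ, IsIntegral ℤ ((ψ K₀ x : Lˣ) : L) := fun x => int_unit (ψ K₀) x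
  let χ : K₀ˣ →* κ :=
    { toFun := fun x => res φ ((ψ K₀ x : Lˣ) : L)
      map_one' := by
        rw [map_one, Units.val_one]
        simpa using res_natCast φ 1
      map_mul' := fun x y => by
        rw [map_mul, Units.val_mul, res_mul φ (hψint x) (hψint y)] }
  have hχ : ∀ x, χ x = res φ ((ψ K₀ x : Lˣ) : L) := fun x => rfl
  have h0 : algebraMap k K₀ ((-1) ^ P.natDegree * P.coeff 0) ≠ 0 := by
    rw [Ne, map_eq_zero]
    exact mul_ne_zero (pow_ne_zero _ (by simp)) hP0
  set u : K₀ˣ := Units.mk0 (algebraMap k K₀ ((-1) ^ P.natDegree * P.coeff 0)) h0 with hu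
  have hχu : χ u ≠ 0 := by
    intro h
    have h1 : χ (u * u⁻¹) = 1 := by rw [mul_inv_cancel, map_one]
    rw [map_mul, h, zero_mul] at h1
    exact zero_ne_one h1
  have hD : (P.natDegree : κ) ≠ 0 := by
    rw [Ne, CharP.cast_eq_zero_iff κ r]
    exact hrd
  -- the power sums
  have hsums : ∀ j, 0 < j → ∑ c ∈ eigs T, (mult T c : κ) * res φ c ^ j =
      if P.natDegree ∣ j then (P.natDegree : κ) * χ u ^ (j / P.natDegree) else 0 := by
    intro j hj
    obtain ⟨K, _, _, hK⟩ := exists_field K₀ hj
    let : Algebra k K := ((algebraMap K₀ K).comp (algebraMap k K₀)).toAlgebra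
    have : IsScalarTower k K₀ K := IsScalarTower.of_algebraMap_eq' rfl
    have : Module.Finite K₀ K := Module.finite_of_finrank_pos (by rw [hK]; exact hj)
    have : Finite K := Module.finite_of_finite K₀
    have : Fintype Kˣ := Fintype.ofFinite Kˣ
    have h1 := htr K₀ K hK₀ (by rw [hK]; exact hj)
    rw [hK, finsum_eq_sum_of_fintype] at h1
    have h2 := congrArg (res φ) h1
    have hAint : ∀ t : Kˣ, IsIntegral ℤ ((A K t : L) - (Nat.card K : L)) := fun t =>
      (int_nat _).sub (int_nat _)
    rw [res_trace φ hint, res_sum φ _ _ (fun t _ => (hAint t).mul (hψint _))] at h2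
    rw [h2, ← hK]
    have hcard : (Nat.card K : κ) ^ 2 = 1 := by
      have h3 : Nat.card K = Nat.card k ^ (m * j) := by
        have := Fintype.ofFinite K
        have := Fintype.ofFinite k
        have := finite_dim (k := k) (K := K)
        rw [Nat.card_eq_fintype_card, Nat.card_eq_fintype_card,
          Module.card_eq_pow_finrank (K := k) (V := K), ← finrank_mul_finrank k K₀ K, hK₀, hK]
      have h4 : ((Nat.card k : ℕ) : κ) ^ 2 = 1 := by
        have h5 := (CharP.natCast_eq_natCast κ r).2 hq
        push_cast at h5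
        exact h5
      rw [h3, Nat.cast_pow, ← pow_mul, mul_comm (m * j) 2, pow_mul, h4, one_pow]
    have h6 := residual_sum (K := K) (κ := κ) hP hmon hP0 hcop' (A K) (fun t ht => by
      obtain ⟨h7, h8⟩ := hA K t ht
      refine ⟨fun h => ?_, fun h => ?_⟩
      · have := (CharP.natCast_eq_natCast κ r).2 (h7 h)
        push_cast at this
        exact this
      · have := (CharP.natCast_eq_natCast κ r).2 (h8 h)
        push_cast at this
        exact this) hcard χ
    rw [← h6]
    refine Finset.sum_congr rfl fun t _ => ?_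
    rw [res_mul φ (hAint t) (hψint _), hχ]
    congr 1
    have h9 : (A K t : L) = ((A K t : L) - (Nat.card K : L)) + (Nat.card K : L) := by ring
    have h10 := congrArg (res φ) h9
    rw [res_add φ (hAint t) (int_nat _), res_natCast, res_natCast] at h10
    rw [h10]
    ring
  exact core_A φ hsums hdim (hankel_ne hD hχu _ fun j hj => rfl) c

end part

section glue

variable {L U V : Type} [Field L] [CharZero L] [IsAlgClosed L] [AddCommGroup U] [Module L U]
    [FiniteDimensional L U] [AddCommGroup V] [Module L V] [FiniteDimensional L V]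

/-- the image of a part all of whose eigenvalues are simple is spanned by eigenvectors -/
theorem range_le {Fr : End L V} (hinj : Function.Injective Fr) {m : ℕ} (hm : 0 < m)
    {T : End L U} (hT : ∀ c, mult T c ≤ 1) (π : U →ₗ[L] V)
    (hπ : ∀ x, π (T x) = (Fr ^ m) (π x)) : LinearMap.range π ≤ ⨆ a, Fr.eigenspace a := by
  rintro _ ⟨x, rfl⟩
  have hx : x ∈ ⨆ c, T.maxGenEigenspace c := by
    rw [End.iSup_maxGenEigenspace_eq_top]
    exact Submodule.mem_top
  induction hx using Submodule.iSup_induction' with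
  | mem c x hx =>
    have h1 : T x = c • x := eigenvector_of_mult (hT c) hx
    have h2 : (Fr ^ m) (π x) = c • π x := by rw [← hπ, h1, map_smul]
    by_cases hc : c = 0
    · rw [hc, zero_smul] at h2
      have h3 : Function.Injective (Fr ^ m) := by
        rw [End.coe_pow]
        exact hinj.iterate m
      have h4 : π x = 0 := h3 (by rw [h2, map_zero])
      rw [h4]
      exact Submodule.zero_mem _
    · exact eigenspace_pow_le hm hc (End.mem_eigenspace_iff.2 h2)
  | zero =>
    rw [map_zero]
    exact Submodule.zero_mem _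
  | add x y _ _ hx hy =>
    rw [map_add]
    exact Submodule.add_mem _ hx hy

end glue

end Pool.Agent.Helper41.OP
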