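import Mathlib

/-!
# Numbers of points of Weierstrass cubics over finite fields
-/

open WeierstrassCurve

namespace Pool.Agent.Helper41.OP

section field

variable {K : Type} [Field K] (W : WeierstrassCurve.Affine K)

/-- a Weierstrass cubic has at most one singular point -/
theorem singular_unique {x y x' y' : K} (h : W.Equation x y) (hs : ¬ W.Nonsingular x y)
    (h' : W.Equation x' y') (hs' : ¬ W.Nonsingular x' y') : x = x' ∧ y = y' := by
  rw [Affine.nonsingular_iff'] at hs hs'
  have h1 : W.a₁ * y - (3 * x ^ 2 + 2 * W.a₂ * x + W.a₄) = 0 := by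
    by_contra hne
    exact hs ⟨h, Or.inl hne⟩
  have h2 : 2 * y + W.a₁ * x + W.a₃ = 0 := by
    by_contra hne
    exact hs ⟨h, Or.inr hne⟩
  have h1' : W.a₁ * y' - (3 * x' ^ 2 + 2 * W.a₂ * x' + W.a₄) = 0 := by
    by_contra hne
    exact hs' ⟨h', Or.inl hne⟩
  have h2' : 2 * y' + W.a₁ * x' + W.a₃ = 0 := by
    by_contra hne
    exact hs' ⟨h', Or.inr hne⟩
  rw [Affine.equation_iff'] at h h'
  have h3 : (x' - x) ^ 3 = 0 := by
    linear_combination 2 * h' - (x' - x) * h1' - (y' - y) * h2' - 2 * h - (x' - x) * h1 -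
      (y' - y) * h2
  have h4 : x' - x = 0 := pow_eq_zero_iff (by norm_num) |>.1 h3
  have hx : x = x' := (sub_eq_zero.1 h4).symm
  subst hx
  have h5 : (y' - y) ^ 2 = 0 := by
    linear_combination h' - h - (y' - y) * h2
  exact ⟨rfl, (sub_eq_zero.1 (pow_eq_zero_iff (by norm_num) |>.1 h5)).symm⟩

variable [Finite K]

instance finite_point : Finite W.Point := by
  refine Finite.of_injective (fun P : W.Point => (match P with
    | .zero => none
    | .some x y _ => some (x, y) : Option (K × K))) ?_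
  rintro (_ | ⟨x, y, h⟩) (_ | ⟨x', y', h'⟩) hP
  · rfl
  · simp at hP
  · simp at hP
  · simp only [Option.some.injEq, Prod.mk.injEq] at hP
    obtain ⟨rfl, rfl⟩ := hP
    rfl

/-- the number of nonsingular points -/
theorem card_point : Nat.card W.Point = Nat.card {P : K × K // W.Nonsingular P.1 P.2} + 1 := by
  have e : W.Point ≃ Option {P : K × K // W.Nonsingular P.1 P.2} :=
    { toFun := fun P => match P with
        | .zero => none
        | .some x y h => some ⟨(x, y), h⟩
      invFun := fun P => match P with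
        | none => .zero
        | some P => .some _ _ P.2
      left_inv := by rintro (_ | _) <;> rfl
      right_inv := by rintro (_ | _) <;> rfl }
  rw [Nat.card_congr e, Finite.card_option]

/-- the number of affine points is the number of nonsingular ones and of singular ones -/
theorem card_equation : Nat.card {P : K × K // W.Equation P.1 P.2} =
    Nat.card {P : K × K // W.Nonsingular P.1 P.2} +
      Nat.card {P : K × K // W.Equation P.1 P.2 ∧ ¬ W.Nonsingular P.1 P.2} := by
  classical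
  rw [← Nat.card_sum]
  refine Nat.card_congr ?_
  refine (Equiv.sumCompl (fun P : {P : K × K // W.Equation P.1 P.2} =>
    W.Nonsingular P.1.1 P.1.2)).symm.trans (Equiv.sumCongr ?_ ?_)
  · exact (Equiv.subtypeSubtypeEquivSubtypeInter (fun P : K × K => W.Equation P.1 P.2)
      (fun P : K × K => W.Nonsingular P.1 P.2)).trans
      (Equiv.subtypeEquivRight fun P => ⟨fun h => h.2, fun h => ⟨h.1, h⟩⟩)
  · exact Equiv.subtypeSubtypeEquivSubtypeInter (fun P : K × K => W.Equation P.1 P.2)
      (fun P : K × K => ¬ W.Nonsingular P.1 P.2)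

open scoped Classical in
/-- the order of a point divides the number of nonsingular points -/
theorem order_dvd {x y : K} (h : W.Nonsingular x y) {r : ℕ}
    (hr : addOrderOf (Affine.Point.some x y h) = r) :
    r ∣ Nat.card {P : K × K // W.Nonsingular P.1 P.2} + 1 := by
  rw [← card_point, ← hr]
  exact addOrderOf_dvd_natCard _

/-- smooth fibres with a point of order `r` -/
theorem card_smooth (hΔ : W.Δ ≠ 0) {x y : K} {r : ℕ}
    (hr : ∃ h : W.Nonsingular x y, by classical exact addOrderOf (Affine.Point.some x y h) = r) :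
    Nat.card {P : K × K // W.Equation P.1 P.2} + 1 ≡ 0 [MOD r] := by
  classical
  obtain ⟨h, hr⟩ := hr
  have h1 := order_dvd W h hr
  have h2 : Nat.card {P : K × K // W.Equation P.1 P.2 ∧ ¬ W.Nonsingular P.1 P.2} = 0 := by
    rw [Nat.card_eq_zero]
    left
    refine ⟨fun P => P.2.2 ?_⟩
    exact (Affine.equation_iff_nonsingular_of_Δ_ne_zero hΔ).1 P.2.1
  rw [card_equation, h2, add_zero]
  exact (Nat.modEq_zero_iff_dvd).2 h1

/-- singular fibres with a nonsingular point of order `r` -/
theorem card_singular (hs : ∃ x y, W.Equation x y ∧ ¬ W.Nonsingular x y) {x y : K} {r : ℕ}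
    (hr : ∃ h : W.Nonsingular x y, by classical exact addOrderOf (Affine.Point.some x y h) = r) :
    Nat.card {P : K × K // W.Equation P.1 P.2} + 1 ≡ 1 [MOD r] := by
  classical
  obtain ⟨h, hr⟩ := hr
  have h1 := order_dvd W h hr
  have h2 : Nat.card {P : K × K // W.Equation P.1 P.2 ∧ ¬ W.Nonsingular P.1 P.2} = 1 := by
    obtain ⟨x', y', he, hn⟩ := hs
    rw [Nat.card_eq_one_iff_unique]
    refine ⟨⟨fun P P' => ?_⟩, ⟨(x', y'), he, hn⟩⟩
    obtain ⟨h3, h4⟩ := singular_unique W P.2.1 P.2.2 P'.2.1 P'.2.2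
    exact Subtype.ext (Prod.ext h3 h4)
  rw [card_equation, h2]
  exact ((Nat.modEq_zero_iff_dvd).2 h1).add_right 1

omit [Finite K] in
theorem card_node_aux {u v : K} : Nonempty ({P : K × K // (P.2 - u * P.1) * (P.2 - v * P.1) =
    P.1 ^ 3 ∧ P.1 ≠ 0} ≃ {m : K // (m - u) * (m - v) ≠ 0}) := by
  refine ⟨⟨fun P => ⟨P.1.2 / P.1.1, ?_⟩, fun m => ⟨((m.1 - u) * (m.1 - v),
    m.1 * ((m.1 - u) * (m.1 - v))), ?_, m.2⟩, fun P => ?_, fun m => ?_⟩⟩
  · obtain ⟨⟨x, y⟩, h, hx⟩ := P
    simp only at h hx ⊢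
    have h1 : (y / x - u) * (y / x - v) = x := by
      have h2 : x ^ 2 * ((y / x - u) * (y / x - v)) = x ^ 2 * x := by
        field_simp
        linear_combination h
      exact mul_left_cancel₀ (pow_ne_zero 2 hx) h2
    rw [h1]
    exact hx
  · simp only
    ring
  · obtain ⟨⟨x, y⟩, h, hx⟩ := P
    simp only at h hx ⊢
    have h1 : (y / x - u) * (y / x - v) = x := by
      have h2 : x ^ 2 * ((y / x - u) * (y / x - v)) = x ^ 2 * x := by
        field_simp
        linear_combination h
      exact mul_left_cancel₀ (pow_ne_zero 2 hx) h2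
    apply Subtype.ext
    simp only
    rw [h1, div_mul_cancel₀ _ hx]
  · apply Subtype.ext
    simp only
    exact mul_div_cancel_right₀ _ m.2

/-- the number of affine points of a split nodal cubic -/
theorem card_node {x₀ y₀ u v : K} (huv : u ≠ v) (h : ∀ x y, W.Equation x y ↔
    (y - y₀ - u * (x - x₀)) * (y - y₀ - v * (x - x₀)) = (x - x₀) ^ 3) :
    Nat.card {P : K × K // W.Equation P.1 P.2} + 1 = Nat.card K := by
  classical
  have : Fintype K := Fintype.ofFinite K
  have e1 : {P : K × K // W.Equation P.1 P.2} ≃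
      {P : K × K // (P.2 - u * P.1) * (P.2 - v * P.1) = P.1 ^ 3} :=
    { toFun := fun P => ⟨(P.1.1 - x₀, P.1.2 - y₀), (h _ _).1 P.2⟩
      invFun := fun P => ⟨(P.1.1 + x₀, P.1.2 + y₀), (h _ _).2 (by
        simp only [add_sub_cancel_right]
        exact P.2)⟩
      left_inv := fun P => by
        apply Subtype.ext
        simp
      right_inv := fun P => by
        apply Subtype.ext
        simp }
  have e2 : {P : K × K // (P.2 - u * P.1) * (P.2 - v * P.1) = P.1 ^ 3} ≃
      {P : K × K // (P.2 - u * P.1) * (P.2 - v * P.1) = P.1 ^ 3 ∧ P.1 ≠ 0} ⊕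
      {P : K × K // (P.2 - u * P.1) * (P.2 - v * P.1) = P.1 ^ 3 ∧ ¬ P.1 ≠ 0} :=
    (Equiv.sumCompl (fun P : {P : K × K // (P.2 - u * P.1) * (P.2 - v * P.1) = P.1 ^ 3} =>
      P.1.1 ≠ 0)).symm.trans (Equiv.sumCongr
        (Equiv.subtypeSubtypeEquivSubtypeInter
          (fun P : K × K => (P.2 - u * P.1) * (P.2 - v * P.1) = P.1 ^ 3) (fun P => P.1 ≠ 0))
        (Equiv.subtypeSubtypeEquivSubtypeInter
          (fun P : K × K => (P.2 - u * P.1) * (P.2 - v * P.1) = P.1 ^ 3) (fun P => ¬ P.1 ≠ 0)))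
  have h1 : Nat.card {P : K × K // (P.2 - u * P.1) * (P.2 - v * P.1) = P.1 ^ 3 ∧ ¬ P.1 ≠ 0} =
      1 := by
    rw [Nat.card_eq_one_iff_unique]
    refine ⟨⟨?_⟩, ⟨(0, 0), by simp⟩⟩
    have key : ∀ P : {P : K × K // (P.2 - u * P.1) * (P.2 - v * P.1) = P.1 ^ 3 ∧ ¬ P.1 ≠ 0},
        P.1 = (0, 0) := by
      rintro ⟨⟨x, y⟩, h2, h3⟩
      have h4 : x = 0 := not_not.1 h3
      have h5 : y * y = 0 := by
        have h6 : (y - u * x) * (y - v * x) = x ^ 3 := h2
        rw [h4] at h6
        linear_combination h6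
      exact Prod.ext h4 (mul_self_eq_zero.1 h5)
    intro P P'
    exact Subtype.ext ((key P).trans (key P').symm)
  obtain ⟨e3⟩ := card_node_aux (K := K) (u := u) (v := v)
  have h2 : Nat.card {m : K // (m - u) * (m - v) ≠ 0} + 2 = Nat.card K := by
    have e4 : K ≃ {m : K // (m - u) * (m - v) ≠ 0} ⊕ {m : K // ¬ (m - u) * (m - v) ≠ 0} :=
      (Equiv.sumCompl _).symm
    rw [Nat.card_congr e4, Nat.card_sum]
    congr 1
    have e5 : {m : K // ¬ (m - u) * (m - v) ≠ 0} ≃ ({u, v} : Finset K) :=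
      Equiv.subtypeEquivRight fun m => by
        simp only [ne_eq, not_not, mul_eq_zero, sub_eq_zero, Finset.mem_insert,
          Finset.mem_singleton]
    rw [Nat.card_congr e5, Nat.card_eq_fintype_card, Fintype.card_coe, Finset.card_pair huv]
  rw [Nat.card_congr e1, Nat.card_congr e2, Nat.card_sum, h1, Nat.card_congr e3, ← h2]

end field

end Pool.Agent.Helper41.OP
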