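import Mathlib

/-!
# Numbers of points, modulo 2 and modulo 3, of cubic curves with a point of order 2 or 3
-/

open Function

namespace Pool.Agent.Helper41.OP

/-- a map of prime order has as many fixed points as points modulo the prime -/
theorem card_fix {α : Type*} [Finite α] (r : ℕ) [Fact r.Prime] (f : α → α) (hf : f^[r] = id) :
    Nat.card α ≡ Nat.card {x : α // f x = x} [MOD r] := by
  classical
  have := Fintype.ofFinite α
  have h := Equiv.Perm.card_fixedPoints_modEq (α := α) (f := f) (p := r) (n := 1) (by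
    rw [pow_one]
    exact hf)
  rw [Nat.card_eq_fintype_card, Nat.card_eq_fintype_card]
  have e : Fintype.card (f.fixedPoints) = Fintype.card {x : α // f x = x} :=
    Fintype.card_congr (Equiv.subtypeEquivRight fun x => Iff.rfl)
  rw [← e]
  exact h

section two

variable {K : Type} [Field K] [Finite K]

/-- the number of roots of a quadratic polynomial modulo 2 -/
theorem card_quad (h2 : (2 : K) ≠ 0) (a b : K) [Decidable (a ^ 2 = 4 * b)] :
    Nat.card {x : K // x ^ 2 + a * x + b = 0} ≡ (if a ^ 2 = 4 * b then 1 else 0) [MOD 2] := by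
  let f : {x : K // x ^ 2 + a * x + b = 0} → {x : K // x ^ 2 + a * x + b = 0} := fun x =>
    ⟨-a - x.1, by have := x.2; linear_combination this⟩
  have hf : f^[2] = id := by
    funext x
    apply Subtype.ext
    change -a - (-a - x.1) = x.1
    ring
  refine (card_fix 2 f hf).trans ?_
  split_ifs with h
  · have hu : Unique {x : {x : K // x ^ 2 + a * x + b = 0} // f x = x} := by
      refine ⟨⟨⟨⟨-a / 2, ?_⟩, ?_⟩⟩, ?_⟩
      · field_simp
        linear_combination -h
      · apply Subtype.ext
        change -a - (-a / 2) = -a / 2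
        field_simp
        ring
      · intro y
        apply Subtype.ext
        apply Subtype.ext
        have hy : -a - y.1.1 = y.1.1 := congrArg Subtype.val y.2
        change y.1.1 = -a / 2
        rw [eq_div_iff h2]
        linear_combination -hy
    rw [Nat.card_unique]
  · have he : IsEmpty {x : {x : K // x ^ 2 + a * x + b = 0} // f x = x} := by
      refine ⟨fun y => h ?_⟩
      have hy : -a - y.1.1 = y.1.1 := congrArg Subtype.val y.2
      have hx := y.1.2
      have h3 : a = -2 * y.1.1 := by linear_combination -hy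
      linear_combination (a + 2 * y.1.1) * h3 - 4 * hx
    rw [Nat.card_of_isEmpty]

/-- a cubic curve with a point of order 2 -/
theorem card_two (h2 : (2 : K) ≠ 0) (a b : K) (hb : b ≠ 0) [Decidable (a ^ 2 = 4 * b)] :
    Nat.card {P : K × K // P.2 ^ 2 = P.1 * (P.1 ^ 2 + a * P.1 + b)} + 1 ≡
      (if a ^ 2 = 4 * b then 1 else 0) [MOD 2] := by
  let f : {P : K × K // P.2 ^ 2 = P.1 * (P.1 ^ 2 + a * P.1 + b)} →
      {P : K × K // P.2 ^ 2 = P.1 * (P.1 ^ 2 + a * P.1 + b)} := fun P =>
    ⟨(P.1.1, -P.1.2), by have := P.2; simpa using this⟩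
  have hf : f^[2] = id := by
    funext x
    apply Subtype.ext
    change (x.1.1, - -x.1.2) = x.1
    rw [neg_neg]
  have h1 := card_fix 2 f hf
  have key : ∀ P : {x // f x = x}, P.1.1.2 = 0 := by
    intro P
    have hy : -P.1.1.2 = P.1.1.2 := congrArg (fun Q => Q.1.2) P.2
    have h3 : 2 * P.1.1.2 = 0 := by linear_combination -hy
    exact (mul_eq_zero.1 h3).resolve_left h2
  have e0 : Nat.card {P : {x // f x = x} // P.1.1.1 = 0} = 1 := by
    have hu : Unique {P : {x // f x = x} // P.1.1.1 = 0} := by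
      refine ⟨⟨⟨⟨⟨(0, 0), ?_⟩, ?_⟩, rfl⟩⟩, ?_⟩
      · simp
      · apply Subtype.ext
        change ((0 : K), -(0 : K)) = (0, 0)
        rw [neg_zero]
      · intro P
        apply Subtype.ext
        apply Subtype.ext
        apply Subtype.ext
        exact Prod.ext P.2 (key P.1)
    rw [Nat.card_unique]
  have e1 : {P : {x // f x = x} // ¬ P.1.1.1 = 0} ≃ {x : K // x ^ 2 + a * x + b = 0} := by
    refine Equiv.ofBijective (fun P => ⟨P.1.1.1.1, ?_⟩) ⟨?_, ?_⟩
    · have h4 := P.1.1.2
      rw [key P.1] at h4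
      have h5 : P.1.1.1.1 * (P.1.1.1.1 ^ 2 + a * P.1.1.1.1 + b) = 0 := by rw [← h4]; ring
      exact (mul_eq_zero.1 h5).resolve_left P.2
    · intro P Q h
      have h' : P.1.1.1.1 = Q.1.1.1.1 := congrArg Subtype.val h
      apply Subtype.ext
      apply Subtype.ext
      apply Subtype.ext
      exact Prod.ext h' ((key P.1).trans (key Q.1).symm)
    · intro x
      have hx : x.1 ≠ 0 := by
        intro h
        have := x.2
        rw [h] at this
        apply hb
        linear_combination this
      refine ⟨⟨⟨⟨(x.1, 0), ?_⟩, ?_⟩, hx⟩, rfl⟩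
      · change (0 : K) ^ 2 = x.1 * (x.1 ^ 2 + a * x.1 + b)
        rw [x.2]
        ring
      · apply Subtype.ext
        change (x.1, -(0 : K)) = (x.1, 0)
        rw [neg_zero]
  have e2 : Nat.card {x // f x = x} = Nat.card {x : K // x ^ 2 + a * x + b = 0} + 1 := by
    classical
    rw [← Nat.card_congr (Equiv.sumCompl (fun P : {x // f x = x} => P.1.1.1 = 0)), Nat.card_sum, e0,
      Nat.card_congr e1, add_comm]
  rw [e2] at h1
  have h3 := card_quad h2 a b
  have h4 : Nat.card {x : K // x ^ 2 + a * x + b = 0} + 1 + 1 ≡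
      (if a ^ 2 = 4 * b then 1 else 0) [MOD 2] := by
    have h5 : Nat.card {x : K // x ^ 2 + a * x + b = 0} + 1 + 1 ≡
        Nat.card {x : K // x ^ 2 + a * x + b = 0} [MOD 2] := by
      rw [add_assoc]
      exact (Nat.ModEq.add_left _ (show 1 + 1 ≡ 0 [MOD 2] by decide)).trans (by rw [add_zero])
    exact h5.trans h3
  exact (Nat.ModEq.add_right 1 h1).trans h4

end two

section three

variable {K : Type} [Field K] [Finite K]

/-- a cubic curve with a point of order 3 -/
theorem card_three (h3 : (3 : K) ≠ 0) (a b : K) (hb : b ≠ 0) [Decidable (a ^ 3 = 27 * b)] :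
    Nat.card {P : K × K // P.2 ^ 2 + a * P.1 * P.2 + b * P.2 = P.1 ^ 3} + 1 ≡
      (if a ^ 3 = 27 * b then 1 else 0) [MOD 3] := by
  classical
  set B := {P : K × K // P.1 * P.2 * (-a - P.1 - P.2) = -b} with hB
  let f : B → B := fun P => ⟨(P.1.2, -a - P.1.1 - P.1.2), by
    have := P.2
    change P.1.2 * (-a - P.1.1 - P.1.2) * (-a - P.1.2 - (-a - P.1.1 - P.1.2)) = -b
    linear_combination this⟩
  have hf : f^[3] = id := by
    funext P
    apply Subtype.ext
    change ((-a - P.1.2 - (-a - P.1.1 - P.1.2)), -a - (-a - P.1.1 - P.1.2) -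
      (-a - P.1.2 - (-a - P.1.1 - P.1.2))) = P.1
    refine Prod.ext ?_ ?_
    · change (-a - P.1.2 - (-a - P.1.1 - P.1.2)) = P.1.1
      ring
    · change -a - (-a - P.1.1 - P.1.2) - (-a - P.1.2 - (-a - P.1.1 - P.1.2)) = P.1.2
      ring
  have h1 := card_fix 3 f hf
  -- the fixed points
  have h27 : (27 : K) ≠ 0 := by
    have : (27 : K) = 3 ^ 3 := by norm_num
    rw [this]
    exact pow_ne_zero 3 h3
  have hfix : Nat.card {P : B // f P = P} = if a ^ 3 = 27 * b then 1 else 0 := by
    split_ifs with h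
    · have hu : Unique {P : B // f P = P} := by
        refine ⟨⟨⟨⟨(-a / 3, -a / 3), ?_⟩, ?_⟩⟩, ?_⟩
        · change -a / 3 * (-a / 3) * (-a - -a / 3 - -a / 3) = -b
          have hb' : b = a ^ 3 / 27 := by
            rw [eq_div_iff h27]
            linear_combination -h
          rw [hb']
          field_simp
          ring
        · apply Subtype.ext
          change (-a / 3, -a - -a / 3 - -a / 3) = (-a / 3, -a / 3)
          refine Prod.ext rfl ?_
          change -a - -a / 3 - -a / 3 = -a / 3
          field_simp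
          ring
        · intro y
          apply Subtype.ext
          apply Subtype.ext
          have hy := congrArg (fun Q : B => Q.1) y.2
          have e1 : y.1.1.2 = y.1.1.1 := congrArg Prod.fst hy
          have e2 : -a - y.1.1.1 - y.1.1.2 = y.1.1.2 := congrArg Prod.snd hy
          change y.1.1 = (-a / 3, -a / 3)
          refine Prod.ext ?_ ?_
          · change y.1.1.1 = -a / 3
            rw [eq_div_iff h3]
            linear_combination -e2 - 2 * e1
          · change y.1.1.2 = -a / 3
            rw [eq_div_iff h3]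
            linear_combination -e2 + e1
      rw [Nat.card_unique]
    · have he : IsEmpty {P : B // f P = P} := by
        refine ⟨fun y => h ?_⟩
        have hy := congrArg (fun Q : B => Q.1) y.2
        have e1 : y.1.1.2 = y.1.1.1 := congrArg Prod.fst hy
        have e2 : -a - y.1.1.1 - y.1.1.2 = y.1.1.2 := congrArg Prod.snd hy
        have e3 := y.1.2
        have key : ∀ u v : K, v = u → -a - u - v = v → u * v * (-a - u - v) = -b →
            a ^ 3 = 27 * b := by
          intro u v e1 e2 e3
          subst e1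
          have e4 : a = -3 * v := by linear_combination -e2
          linear_combination (a ^ 2 - 3 * v * a - 18 * v ^ 2) * e4 - 27 * e3
        exact key _ _ e1 e2 e3
      rw [Nat.card_of_isEmpty]
  -- the points of the cubic
  set A := {P : K × K // P.2 ^ 2 + a * P.1 * P.2 + b * P.2 = P.1 ^ 3} with hA
  have e0 : Nat.card {P : A // P.1.1 = 0} = 2 := by
    rw [Nat.card_eq_two_iff]
    refine ⟨⟨⟨(0, 0), by simp⟩, rfl⟩, ⟨⟨(0, -b), ?_⟩, rfl⟩, ?_, ?_⟩
    · change (-b) ^ 2 + a * 0 * (-b) + b * (-b) = 0 ^ 3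
      ring
    · intro h
      have h4 := congrArg (fun P : {P : A // P.1.1 = 0} => P.1.1.2) h
      have h5 : (0 : K) = -b := h4
      exact hb (by linear_combination h5)
    · ext P
      refine ⟨fun _ => trivial, fun _ => ?_⟩
      have h4 := P.1.2
      rw [P.2] at h4
      have h5 : P.1.1.2 * (P.1.1.2 + b) = 0 := by linear_combination h4
      rcases mul_eq_zero.1 h5 with h6 | h6
      · left
        apply Subtype.ext
        apply Subtype.ext
        exact Prod.ext P.2 h6
      · right
        apply Subtype.ext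
        apply Subtype.ext
        refine Prod.ext P.2 ?_
        change P.1.1.2 = -b
        linear_combination h6
  have e1 : {P : A // ¬ P.1.1 = 0} ≃ B := by
    refine Equiv.ofBijective (fun P => ⟨(P.1.1.2 / P.1.1.1, -(P.1.1.2 + a * P.1.1.1 + b) / P.1.1.1), ?_⟩) ⟨?_, ?_⟩
    · have h4 := P.1.2
      have h5 : P.1.1.1 ≠ 0 := P.2
      change P.1.1.2 / P.1.1.1 * (-(P.1.1.2 + a * P.1.1.1 + b) / P.1.1.1) *
        (-a - P.1.1.2 / P.1.1.1 - -(P.1.1.2 + a * P.1.1.1 + b) / P.1.1.1) = -b
      have h6 : -a - P.1.1.2 / P.1.1.1 - -(P.1.1.2 + a * P.1.1.1 + b) / P.1.1.1 = b / P.1.1.1 := by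
        field_simp
        ring
      rw [h6]
      have h7 : P.1.1.2 / P.1.1.1 * (-(P.1.1.2 + a * P.1.1.1 + b) / P.1.1.1) * (b / P.1.1.1) =
          -b * (P.1.1.2 ^ 2 + a * P.1.1.1 * P.1.1.2 + b * P.1.1.2) / P.1.1.1 ^ 3 := by
        field_simp
      rw [h7, h4, mul_div_assoc, div_self (pow_ne_zero 3 h5), mul_one]
    · intro P Q h
      have hP : P.1.1.1 ≠ 0 := P.2
      have hQ : Q.1.1.1 ≠ 0 := Q.2
      have h4 : P.1.1.2 / P.1.1.1 = Q.1.1.2 / Q.1.1.1 := congrArg (fun R : B => R.1.1) h
      have h5 : -(P.1.1.2 + a * P.1.1.1 + b) / P.1.1.1 = -(Q.1.1.2 + a * Q.1.1.1 + b) / Q.1.1.1 :=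
        congrArg (fun R : B => R.1.2) h
      have h6 : -a - P.1.1.2 / P.1.1.1 - -(P.1.1.2 + a * P.1.1.1 + b) / P.1.1.1 = b / P.1.1.1 := by
        field_simp
        ring
      have h7 : -a - Q.1.1.2 / Q.1.1.1 - -(Q.1.1.2 + a * Q.1.1.1 + b) / Q.1.1.1 = b / Q.1.1.1 := by
        field_simp
        ring
      rw [h4, h5, h7] at h6
      have h8 : P.1.1.1 = Q.1.1.1 := by
        rw [div_eq_div_iff hQ hP] at h6
        exact mul_left_cancel₀ hb h6
      rw [h8] at h4
      have h9 : P.1.1.2 = Q.1.1.2 := by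
        rw [div_left_inj' hQ] at h4
        exact h4
      apply Subtype.ext
      apply Subtype.ext
      exact Prod.ext h8 h9
    · intro Q
      have hQ := Q.2
      have hw : -a - Q.1.1 - Q.1.2 ≠ 0 := by
        intro h
        rw [h, mul_zero] at hQ
        exact hb (by linear_combination hQ)
      set w := -a - Q.1.1 - Q.1.2 with hwdef
      have hx : b / w ≠ 0 := div_ne_zero hb hw
      have hv : Q.1.2 = -a - Q.1.1 - w := by rw [hwdef]; ring
      refine ⟨⟨⟨(b / w, Q.1.1 * (b / w)), ?_⟩, hx⟩, ?_⟩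
      · change (Q.1.1 * (b / w)) ^ 2 + a * (b / w) * (Q.1.1 * (b / w)) + b * (Q.1.1 * (b / w)) =
          (b / w) ^ 3
        rw [hv] at hQ
        field_simp
        linear_combination -hQ
      · apply Subtype.ext
        refine Prod.ext ?_ ?_
        · change Q.1.1 * (b / w) / (b / w) = Q.1.1
          rw [mul_div_cancel_right₀ _ hx]
        · change -(Q.1.1 * (b / w) + a * (b / w) + b) / (b / w) = Q.1.2
          rw [hv]
          field_simp
          ring
  have e2 : Nat.card A = Nat.card B + 2 := by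
    rw [← Nat.card_congr (Equiv.sumCompl (fun P : A => P.1.1 = 0)), Nat.card_sum, e0,
      Nat.card_congr e1, add_comm]
  rw [e2]
  rw [hfix] at h1
  have h5 : Nat.card B + 2 + 1 ≡ Nat.card B [MOD 3] := by
    rw [add_assoc]
    exact (Nat.ModEq.add_left _ (show 2 + 1 ≡ 0 [MOD 3] by decide)).trans (by rw [add_zero])
  exact h5.trans h1

end three

end Pool.Agent.Helper41.OP
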