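import Mathlib

/-!
# Roots of an irreducible polynomial in extensions of finite fields, and their norms
-/

open Module Polynomial IntermediateField

namespace Pool.Agent.Helper41.OP

section roots

variable {k K₀ K : Type} [Field k] [Field K₀] [Field K] [Algebra k K₀] [Algebra k K]
    [Algebra K₀ K] [IsScalarTower k K₀ K] [Finite K]

omit [Algebra K₀ K] [IsScalarTower k K₀ K] in
theorem finite_dim : FiniteDimensional k K := by
  have : Finite k := Finite.of_injective _ (algebraMap k K).injective
  infer_instance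

omit [Algebra K₀ K] [IsScalarTower k K₀ K] [Finite K] in
theorem minpoly_eq {P : k[X]} (hP : Irreducible P) (hmon : P.Monic) {β : K}
    (hβ : aeval β P = 0) : minpoly k β = P := by
  have h := minpoly.eq_of_irreducible hP hβ
  rw [hmon.leadingCoeff, inv_one, map_one, mul_one] at h
  exact h.symm

omit [Algebra K₀ K] [IsScalarTower k K₀ K] in
theorem dvd_finrank {P : k[X]} (hP : Irreducible P) (hmon : P.Monic) {β : K}
    (hβ : aeval β P = 0) : P.natDegree ∣ finrank k K := by
  have := finite_dim (k := k) (K := K)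
  have h1 : finrank k k⟮β⟯ = P.natDegree := by
    rw [adjoin.finrank (Algebra.IsIntegral.isIntegral β), minpoly_eq hP hmon hβ]
  rw [← h1, ← finrank_mul_finrank k k⟮β⟯ K]
  exact dvd_mul_right _ _

theorem dvd_rel {P : k[X]} (hP : Irreducible P) (hmon : P.Monic)
    (hcop : (finrank k K₀).Coprime P.natDegree) {β : K}
    (hβ : aeval β P = 0) : P.natDegree ∣ finrank K₀ K := by
  have h1 := dvd_finrank hP hmon hβ
  have : Finite K₀ := Finite.of_injective _ (algebraMap K₀ K).injective
  have := finite_dim (k := k) (K := K₀)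
  rw [← finrank_mul_finrank k K₀ K] at h1
  exact hcop.symm.dvd_of_dvd_mul_left h1

theorem minpoly_rel {P : k[X]} (hP : Irreducible P) (hmon : P.Monic)
    (hcop : (finrank k K₀).Coprime P.natDegree) {β : K}
    (hβ : aeval β P = 0) : minpoly K₀ β = P.map (algebraMap k K₀) := by
  have : Finite K₀ := Finite.of_injective _ (algebraMap K₀ K).injective
  have := finite_dim (k := K₀) (K := K)
  have hint : IsIntegral K₀ β := Algebra.IsIntegral.isIntegral β
  have hdvd : minpoly K₀ β ∣ P.map (algebraMap k K₀) := by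
    apply minpoly.dvd
    rw [aeval_map_algebraMap]
    exact hβ
  have hst : IsScalarTower k K₀⟮β⟯ K := IsScalarTower.of_algebraMap_eq fun x => by
    rw [IsScalarTower.algebraMap_apply k K₀ K, IsScalarTower.algebraMap_apply k K₀ K₀⟮β⟯,
      ← IsScalarTower.algebraMap_apply K₀ K₀⟮β⟯ K]
  have h2 : aeval (AdjoinSimple.gen K₀ β) P = 0 := by
    apply (algebraMap K₀⟮β⟯ K).injective
    rw [map_zero, ← aeval_algebraMap_apply, AdjoinSimple.algebraMap_gen]
    exact hβ
  have h3 : P.natDegree ∣ finrank K₀ K₀⟮β⟯ := dvd_rel hP hmon hcop h2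
  have h4 : 0 < finrank K₀ K₀⟮β⟯ := finrank_pos
  have h5 := Nat.le_of_dvd h4 h3
  rw [adjoin.finrank hint] at h5
  refine (Polynomial.eq_of_monic_of_dvd_of_natDegree_le (minpoly.monic hint)
    (hmon.map (algebraMap k K₀)) hdvd ?_).symm
  rw [natDegree_map]
  exact h5

theorem norm_root {P : k[X]} (hP : Irreducible P) (hmon : P.Monic)
    (hcop : (finrank k K₀).Coprime P.natDegree) {β : K}
    (hβ : aeval β P = 0) : Algebra.norm K₀ β =
      algebraMap k K₀ ((-1) ^ P.natDegree * P.coeff 0) ^ (finrank K₀ K / P.natDegree) := by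
  have : Finite K₀ := Finite.of_injective _ (algebraMap K₀ K).injective
  have := finite_dim (k := K₀) (K := K)
  have hint : IsIntegral K₀ β := Algebra.IsIntegral.isIntegral β
  have hmin := minpoly_rel hP hmon hcop hβ
  have h1 := Algebra.norm_eq_norm_adjoin K₀ β
  have h2 : Algebra.norm K₀ (AdjoinSimple.gen K₀ β) =
      algebraMap k K₀ ((-1) ^ P.natDegree * P.coeff 0) := by
    have h3 := Algebra.PowerBasis.norm_gen_eq_coeff_zero_minpoly (adjoin.powerBasis hint)
    rw [adjoin.powerBasis_gen, adjoin.powerBasis_dim, minpoly_gen, hmin, natDegree_map,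
      coeff_map] at h3
    rw [h3, map_mul, map_pow, map_neg, map_one]
  have h4 : finrank K₀⟮β⟯ K = finrank K₀ K / P.natDegree := by
    have h5 := finrank_mul_finrank K₀ K₀⟮β⟯ K
    have h6 : finrank K₀ K₀⟮β⟯ = P.natDegree := by
      rw [adjoin.finrank hint, hmin, natDegree_map]
    rw [h6] at h5
    rw [← h5, Nat.mul_div_cancel_left]
    rw [← h6]
    exact finrank_pos
  rw [h1, h2, h4]

omit [Algebra K₀ K] [IsScalarTower k K₀ K] in
theorem card_roots {P : k[X]} (hP : Irreducible P)
    (h : P.natDegree ∣ finrank k K) : Nat.card {β : K // aeval β P = 0} = P.natDegree := by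
  have : Fact (Irreducible P) := ⟨hP⟩
  have hdeg : finrank k (AdjoinRoot P) = P.natDegree := by
    rw [(AdjoinRoot.powerBasis hP.ne_zero).finrank, AdjoinRoot.powerBasis_dim]
  have h1 : Nat.card (AdjoinRoot P →ₐ[k] K) = P.natDegree := by
    rw [FiniteField.natCard_algHom_of_finrank_dvd (by rw [hdeg]; exact h), hdeg]
  have e : {β : K // aeval β P = 0} ≃ {x // x ∈ P.aroots K} :=
    Equiv.subtypeEquivRight fun x => by
      rw [mem_aroots]
      exact ⟨fun hx => ⟨hP.ne_zero, hx⟩, fun hx => hx.2⟩
  rw [Nat.card_congr e, ← Nat.card_congr (AdjoinRoot.equiv K k P hP.ne_zero), h1]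

end roots

end Pool.Agent.Helper41.OP
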