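import Pool.Agent.Helper41.OP.Roots

/-!
# Sums over the roots of a polynomial, and Hankel determinants
-/

open Module Polynomial

namespace Pool.Agent.Helper41.OP

section sum

variable {k K₀ K κ : Type} [Field k] [Field K₀] [Field K] [Algebra k K₀] [Algebra k K]
    [Algebra K₀ K] [IsScalarTower k K₀ K] [Finite K] [Field κ]

/-- the element whose powers are the norms of the roots -/
theorem unit_ne {P : k[X]} (hP0 : P.coeff 0 ≠ 0) :
    algebraMap k K₀ ((-1) ^ P.natDegree * P.coeff 0) ≠ 0 := by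
  rw [Ne, map_eq_zero]
  exact mul_ne_zero (pow_ne_zero _ (by simp)) hP0

/-- the sum of a character over the norms of the roots of an irreducible polynomial -/
theorem root_sum [Fintype Kˣ] {P : k[X]} (hP : Irreducible P) (hmon : P.Monic)
    (hP0 : P.coeff 0 ≠ 0) (hcop : (finrank k K₀).Coprime P.natDegree) (χ : K₀ˣ →* κ) :
    ∑ t : Kˣ, (open scoped Classical in
        if aeval (t : K) P = 0 then χ (Units.map (Algebra.norm K₀) t) else 0) =
      if P.natDegree ∣ finrank K₀ K then (P.natDegree : κ) *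
        χ (Units.mk0 _ (unit_ne hP0)) ^ (finrank K₀ K / P.natDegree)
      else 0 := by
  classical
  set u : K₀ˣ := Units.mk0 _ (unit_ne hP0) with hu
  split_ifs with hdvd
  · have hval : ∀ t : Kˣ, (if aeval (t : K) P = 0 then χ (Units.map (Algebra.norm K₀) t) else 0) =
        if aeval (t : K) P = 0 then χ u ^ (finrank K₀ K / P.natDegree) else 0 := by
      intro t
      split_ifs with h
      · rw [← map_pow]
        congr 1
        apply Units.ext
        rw [Units.coe_map, Units.val_pow_eq_pow_val, hu, Units.val_mk0]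
        exact norm_root hP hmon hcop h
      · rfl
    rw [Finset.sum_congr rfl fun t _ => hval t, ← Finset.sum_filter, Finset.sum_const, nsmul_eq_mul]
    congr 1
    have hcard : (Finset.univ.filter fun t : Kˣ => aeval (t : K) P = 0).card = P.natDegree := by
      have : Finite K₀ := Finite.of_injective _ (algebraMap K₀ K).injective
      have := finite_dim (k := k) (K := K₀)
      have h1 : P.natDegree ∣ finrank k K := by
        rw [← finrank_mul_finrank k K₀ K]
        exact hdvd.mul_left _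
      rw [← card_roots hP h1, ← Fintype.card_subtype, Fintype.card_eq_nat_card]
      refine Nat.card_congr (Equiv.ofBijective (fun t => ⟨(t.1 : K), t.2⟩) ⟨?_, ?_⟩)
      · intro s t hst
        apply Subtype.ext
        apply Units.ext
        exact congrArg Subtype.val hst
      · intro β
        have hβ : β.1 ≠ 0 := by
          intro h
          have h2 := β.2
          rw [h, ← Polynomial.coeff_zero_eq_aeval_zero'] at h2
          rw [map_eq_zero] at h2
          exact hP0 h2
        exact ⟨⟨Units.mk0 β.1 hβ, β.2⟩, rfl⟩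
    rw [hcard]
  · refine Finset.sum_eq_zero fun t _ => ?_
    rw [if_neg]
    intro h
    exact hdvd (dvd_rel hP hmon hcop h)

end sum

section hankel

variable {κ : Type} [Field κ]

/-- the Hankel determinant of the power sums of distinct elements -/
theorem hankel_of_roots {D : ℕ} {ρ : Fin D → κ} (hρ : Function.Injective ρ)
    (h0 : ∀ i, ρ i ≠ 0) {n : ℕ → κ} (hn : ∀ j, 0 < j → n j = ∑ i, ρ i ^ j) :
    (Matrix.of fun i j : Fin D => n ((i : ℕ) + (j : ℕ) + 1)).det ≠ 0 := by
  classical
  have h1 : (Matrix.of fun i j : Fin D => n ((i : ℕ) + (j : ℕ) + 1)) =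
      (Matrix.vandermonde ρ).transpose * Matrix.diagonal ρ * Matrix.vandermonde ρ := by
    ext i j
    rw [Matrix.mul_apply, Matrix.of_apply, hn _ (by omega)]
    refine Finset.sum_congr rfl fun a _ => ?_
    rw [Matrix.mul_diagonal, Matrix.transpose_apply, Matrix.vandermonde_apply,
      Matrix.vandermonde_apply]
    ring
  rw [h1, Matrix.det_mul, Matrix.det_mul, Matrix.det_transpose, Matrix.det_diagonal]
  refine mul_ne_zero (mul_ne_zero ?_ ?_) ?_
  · exact Matrix.det_vandermonde_ne_zero_iff.2 hρ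
  · exact Finset.prod_ne_zero_iff.2 fun i _ => h0 i
  · exact Matrix.det_vandermonde_ne_zero_iff.2 hρ

/-- the power sums of the roots of `T ^ d = u` -/
theorem exists_roots [IsAlgClosed κ] {d : ℕ} (hd : (d : κ) ≠ 0) {u : κ} (hu : u ≠ 0) :
    ∃ ρ : Fin d → κ, Function.Injective ρ ∧ (∀ i, ρ i ^ d = u) ∧
      ∀ j, ∑ i, ρ i ^ j = if d ∣ j then (d : κ) * u ^ (j / d) else 0 := by
  have hd0 : 0 < d := Nat.pos_of_ne_zero (by rintro rfl; exact hd Nat.cast_zero)
  have : NeZero (d : κ) := ⟨hd⟩
  have : NeZero d := ⟨hd0.ne'⟩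
  obtain ⟨ρ₀, hρ₀⟩ := IsAlgClosed.exists_pow_nat_eq u hd0
  obtain ⟨ζ, hζ⟩ := HasEnoughRootsOfUnity.exists_primitiveRoot κ d
  have hρ0 : ρ₀ ≠ 0 := by
    rintro rfl
    rw [zero_pow hd0.ne'] at hρ₀
    exact hu hρ₀.symm
  refine ⟨fun i => ρ₀ * ζ ^ (i : ℕ), ?_, ?_, ?_⟩
  · intro i j hij
    exact Fin.ext (hζ.pow_inj i.2 j.2 (mul_left_cancel₀ hρ0 hij))
  · intro i
    rw [mul_pow, hρ₀, ← pow_mul, mul_comm (i : ℕ) d, pow_mul, hζ.pow_eq_one, one_pow, mul_one]
  · intro j
    have h1 : ∀ i : Fin d, (ρ₀ * ζ ^ (i : ℕ)) ^ j = ρ₀ ^ j * (ζ ^ j) ^ (i : ℕ) := by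
      intro i
      rw [mul_pow, ← pow_mul, ← pow_mul, mul_comm (i : ℕ) j]
    rw [Finset.sum_congr rfl fun i _ => h1 i, ← Finset.mul_sum,
      Fin.sum_univ_eq_sum_range (fun i => (ζ ^ j) ^ i) d]
    split_ifs with h
    · obtain ⟨c, rfl⟩ := h
      rw [pow_mul ζ, hζ.pow_eq_one, one_pow]
      simp only [one_pow, Finset.sum_const, Finset.card_range, nsmul_eq_mul, mul_one]
      rw [Nat.mul_div_cancel_left _ hd0, pow_mul, hρ₀, mul_comm]
    · have h2 : ζ ^ j ≠ 1 := fun h3 => h (hζ.dvd_of_pow_eq_one _ h3)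
      have h3 : (ζ ^ j - 1) * ∑ i ∈ Finset.range d, (ζ ^ j) ^ i = 0 := by
        rw [mul_comm, geom_sum_mul, ← pow_mul, mul_comm j d, pow_mul, hζ.pow_eq_one, one_pow,
          sub_self]
      rcases mul_eq_zero.1 h3 with h4 | h4
      · exact absurd (sub_eq_zero.1 h4) h2
      · rw [h4, mul_zero]

end hankel

end Pool.Agent.Helper41.OP
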