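import Pool.Agent.Helper41.OP.Core
import Pool.Agent.Helper41.OP.Sum

/-!
# The residual eigenvalues of one part: two bad places
-/

open Module Polynomial

namespace Pool.Agent.Helper41.OP

open Pool.Agent.Helper73.KT Pool.Agent.Helper73.HD

/-- an algebraically closed residue field of characteristic `r` of the algebraic integers -/
theorem exists_residue_closed {L : Type} [Field L] [CharZero L] (r : ℕ) [Fact r.Prime] :
    ∃ (κ : Type) (_ : Field κ) (_ : IsAlgClosed κ) (_ : CharP κ r),
      Nonempty (integralClosure ℤ L →+* κ) := by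
  obtain ⟨κ, _, _, ⟨φ⟩⟩ := exists_residue (L := L) r
  refine ⟨AlgebraicClosure κ, inferInstance, inferInstance, ?_,
    ⟨(algebraMap κ (AlgebraicClosure κ)).comp φ⟩⟩
  exact charP_of_injective_algebraMap (algebraMap κ (AlgebraicClosure κ)).injective r

/-- An irreducible polynomial of degree prime to `r` and `m`, with nonzero constant term, or `1`
if there is no bad place of this type. -/
def Place (r m : ℕ) {k : Type} [Field k] (R : k[X]) : Prop :=
  R = 1 ∨ Irreducible R ∧ R.Monic ∧ R.coeff 0 ≠ 0 ∧ ¬ r ∣ R.natDegree ∧ m.Coprime R.natDegree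

section roots

variable {k K₀ κ : Type} [Field k] [Field K₀] [Finite K₀] [Algebra k K₀] [Field κ] [IsAlgClosed κ]

/-- the contribution of one place -/
theorem place_roots {r m n : ℕ} [CharP κ r] (hK₀ : finrank k K₀ = m) {R : k[X]}
    (hR : Place r m R) {g : κ} (hg : g ≠ 0) (χ : K₀ˣ →* κ) (hχn : ∀ x, χ x ^ n = 1) :
    ∃ σ : Fin R.natDegree → κ, Function.Injective σ ∧ (∀ i, σ i ≠ 0) ∧
      (∀ i, σ i ^ (R.natDegree * n) = g ^ (m * R.natDegree * n)) ∧
      ∀ (K : Type) [Field K] [Algebra k K] [Algebra K₀ K] [IsScalarTower k K₀ K] [Finite K]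
        [Fintype Kˣ], 0 < finrank K₀ K →
        g ^ (m * finrank K₀ K) * ∑ t : Kˣ, (open scoped Classical in if aeval (t : K) R = 0 then
          χ (Units.map (Algebra.norm K₀) t) else 0) = ∑ i, σ i ^ finrank K₀ K := by
  classical
  have hχ0 : ∀ x, χ x ≠ 0 := by
    intro x h
    have h1 : χ (x * x⁻¹) = 1 := by rw [mul_inv_cancel, map_one]
    rw [map_mul, h, zero_mul] at h1
    exact zero_ne_one h1
  rcases hR with rfl | ⟨hQi, hQm, hQ0, hrQ, hmQ⟩
  · refine ⟨fun i => 1, ?_, ?_, ?_, ?_⟩
    · intro i
      exact absurd i.2 (by simp)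
    · intro i
      exact absurd i.2 (by simp)
    · intro i
      exact absurd i.2 (by simp)
    · intro K _ _ _ _ _ _ hK
      have h1 : ∀ t : Kˣ, (if aeval (t : K) (1 : k[X]) = 0 then
          χ (Units.map (Algebra.norm K₀) t) else 0) = 0 := by
        intro t
        rw [if_neg]
        rw [map_one]
        exact one_ne_zero
      rw [Finset.sum_congr rfl fun t _ => h1 t, Finset.sum_const_zero, mul_zero]
      simp
  · have hcopQ : (finrank k K₀).Coprime R.natDegree := by rw [hK₀]; exact hmQ
    have hDQ : (R.natDegree : κ) ≠ 0 := by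
      rw [Ne, CharP.cast_eq_zero_iff κ r]
      exact hrQ
    set v : κ := χ (Units.mk0 _ (unit_ne (K₀ := K₀) hQ0)) with hv
    have hw : g ^ (m * R.natDegree) * v ≠ 0 :=
      mul_ne_zero (pow_ne_zero _ hg) (hχ0 _)
    obtain ⟨σ, hσinj, hσu, hσsum⟩ := exists_roots hDQ hw
    have hdQ0 : R.natDegree ≠ 0 := by
      intro h2
      rw [h2, Nat.cast_zero] at hDQ
      exact hDQ rfl
    refine ⟨σ, hσinj, ?_, ?_, ?_⟩
    · intro i h
      have h1 := hσu i
      rw [h, zero_pow hdQ0] at h1
      exact hw h1.symm
    · intro i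
      rw [pow_mul, hσu, mul_pow, hχn, mul_one, ← pow_mul]
    · intro K _ _ _ _ _ _ hK
      rw [hσsum, root_sum hQi hQm hQ0 hcopQ χ]
      split_ifs with h
      · obtain ⟨e, he⟩ := h
        rw [he, Nat.mul_div_cancel_left _ (Nat.pos_of_ne_zero hdQ0), mul_pow, ← pow_mul,
          mul_assoc m]
        ring
      · rw [mul_zero]

end roots

section part

variable {k L U : Type} [Field k] [Finite k] [Field L] [CharZero L] [IsAlgClosed L]
    [AddCommGroup U] [Module L U] [FiniteDimensional L U]

/-- all eigenvalues of one part are simple -/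
theorem simple_two (r : ℕ) [Fact r.Prime] (hrq : ¬ r ∣ Nat.card k) {P Q : k[X]}
    {m n : ℕ} (hm : 0 < m) (hP : Place r m P) (hQ : Place r m Q)
    (hPQ : P = 1 ∨ Q = 1 ∨ P ≠ Q ∧
      ¬ Nat.card k ^ (m * n * (P.natDegree * Q.natDegree)) ≡ 1 [MOD r])
    (A : ∀ (K : Type) [Field K] [Algebra k K], K → ℕ)
    (hA : ∀ (K : Type) [Field K] [Algebra k K] [Finite K] (t : K), t ≠ 0 →
      (aeval t P ≠ 0 → aeval t Q ≠ 0 → A K t + 1 ≡ 0 [MOD r]) ∧
      (aeval t P = 0 → aeval t Q ≠ 0 → A K t + 1 ≡ 1 [MOD r]) ∧
      (aeval t Q = 0 → A K t + 1 ≡ Nat.card K [MOD r]))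
    (ψ : ∀ (K₀ : Type) [Field K₀] [Algebra k K₀], K₀ˣ →* Lˣ)
    (hψn : ∀ (K₀ : Type) [Field K₀] [Algebra k K₀], finrank k K₀ = m → ψ K₀ ^ n = 1)
    (hψ : Nat.card k ^ 2 ≡ 1 [MOD r] ∨
      ∀ (K₀ : Type) [Field K₀] [Algebra k K₀], finrank k K₀ = m → ψ K₀ ≠ 1) (T : End L U)
    (hint : ∀ c ∈ eigs T, IsIntegral ℤ c) (hdim : finrank L U ≤ P.natDegree + Q.natDegree)
    (htr : ∀ (K₀ K : Type) [Field K₀] [Field K] [Algebra k K₀] [Algebra k K]
      [Algebra K₀ K] [IsScalarTower k K₀ K], finrank k K₀ = m → 0 < finrank K₀ K →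
      LinearMap.trace L U (T ^ finrank K₀ K) = ∑ᶠ t : Kˣ,
        ((A K t : L) - (Nat.card K : L)) * ((ψ K₀ (Units.map (Algebra.norm K₀) t) : Lˣ) : L))
    (c : L) : mult T c ≤ 1 := by
  classical
  obtain ⟨κ, _, _, _, ⟨φ⟩⟩ := exists_residue_closed (L := L) r
  obtain ⟨K₀, _, _, hK₀⟩ := exists_field k hm
  have : Module.Finite k K₀ := Module.finite_of_finrank_pos (by rw [hK₀]; exact hm)
  have : Finite K₀ := Module.finite_of_finite k
  have hq0 : (Nat.card k : κ) ≠ 0 := by
    rw [Ne, CharP.cast_eq_zero_iff κ r]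
    exact hrq
  -- the reduction of the character
  have hψint : ∀ x : K₀ˣ, IsIntegral ℤ ((ψ K₀ x : Lˣ) : L) := fun x => int_unit (ψ K₀) x
  let χ : K₀ˣ →* κ :=
    { toFun := fun x => res φ ((ψ K₀ x : Lˣ) : L)
      map_one' := by
        rw [map_one, Units.val_one]
        simpa using res_natCast φ 1
      map_mul' := fun x y => by
        rw [map_mul, Units.val_mul, res_mul φ (hψint x) (hψint y)] }
  have hχ : ∀ x, χ x = res φ ((ψ K₀ x : Lˣ) : L) := fun x => rfl
  have hχn : ∀ x, χ x ^ n = 1 := by
    intro x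
    rw [← map_pow, hχ, map_pow, ← MonoidHom.pow_apply, hψn K₀ hK₀, MonoidHom.one_apply,
      Units.val_one]
    simpa using res_natCast φ 1
  obtain ⟨ρ, hρinj, hρ0, hρn, hρsum⟩ := place_roots (κ := κ) hK₀ hP one_ne_zero χ hχn
  obtain ⟨σ, hσinj, hσ0, hσn, hσsum⟩ := place_roots (κ := κ) hK₀ hQ hq0 χ hχn
  have hσρ : ∀ i j, ρ i ≠ σ j := by
    intro i j hij
    rcases hPQ with h | h | ⟨-, h⟩
    · have h1 : P.natDegree = 0 := by rw [h, natDegree_one]
      exact absurd i.2 (by omega)
    · have h1 : Q.natDegree = 0 := by rw [h, natDegree_one]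
      exact absurd j.2 (by omega)
    · apply h
      rw [← CharP.natCast_eq_natCast κ r]
      have h1 : ρ i ^ (P.natDegree * n * Q.natDegree) = 1 := by
        rw [pow_mul, hρn, one_pow, one_pow]
      have h2 : σ j ^ (Q.natDegree * n * P.natDegree) =
          (Nat.card k : κ) ^ (m * n * (P.natDegree * Q.natDegree)) := by
        rw [pow_mul, hσn, ← pow_mul]
        congr 1
        ring
      have h3 : P.natDegree * n * Q.natDegree = Q.natDegree * n * P.natDegree := by ring
      rw [hij, h3, h2] at h1
      push_cast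
      exact h1
  -- all residual eigenvalues
  let τ : Fin (P.natDegree + Q.natDegree) → κ := fun i => Sum.elim ρ σ (finSumFinEquiv.symm i)
  have hτinj : Function.Injective τ := by
    have h1 : Function.Injective (Sum.elim ρ σ) := by
      apply Function.Injective.sumElim hρinj hσinj
      exact hσρ
    exact h1.comp finSumFinEquiv.symm.injective
  have hτ0 : ∀ i, τ i ≠ 0 := by
    intro i
    change Sum.elim ρ σ (finSumFinEquiv.symm i) ≠ 0
    rcases finSumFinEquiv.symm i with j | j
    · exact hρ0 j
    · exact hσ0 j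
  have hτsum : ∀ j, ∑ i, τ i ^ j = ∑ i, ρ i ^ j + ∑ i, σ i ^ j := by
    intro j
    rw [← finSumFinEquiv.sum_comp (fun i => τ i ^ j), Fintype.sum_sum_type]
    simp only [τ, Equiv.symm_apply_apply, Sum.elim_inl, Sum.elim_inr]
  -- the power sums
  have hsums : ∀ j, 0 < j → ∑ c ∈ eigs T, (mult T c : κ) * res φ c ^ j = ∑ i, τ i ^ j := by
    intro j hj
    obtain ⟨K, _, _, hK⟩ := exists_field K₀ hj
    let : Algebra k K := ((algebraMap K₀ K).comp (algebraMap k K₀)).toAlgebra
    have : IsScalarTower k K₀ K := IsScalarTower.of_algebraMap_eq' rfl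
    have : Module.Finite K₀ K := Module.finite_of_finrank_pos (by rw [hK]; exact hj)
    have : Finite K := Module.finite_of_finite K₀
    have : Fintype Kˣ := Fintype.ofFinite Kˣ
    have h1 := htr K₀ K hK₀ (by rw [hK]; exact hj)
    rw [hK, finsum_eq_sum_of_fintype] at h1
    have h2 := congrArg (res φ) h1
    have hAint : ∀ t : Kˣ, IsIntegral ℤ ((A K t : L) - (Nat.card K : L)) := fun t =>
      (int_nat _).sub (int_nat _)
    rw [res_trace φ hint, res_sum φ _ _ (fun t _ => (hAint t).mul (hψint _))] at h2
    rw [h2]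
    have hcardK : Nat.card K = Nat.card k ^ (m * j) := by
      have := Fintype.ofFinite K
      have := Fintype.ofFinite k
      have := finite_dim (k := k) (K := K)
      rw [Nat.card_eq_fintype_card, Nat.card_eq_fintype_card,
        Module.card_eq_pow_finrank (K := k) (V := K), ← finrank_mul_finrank k K₀ K, hK₀, hK]
    -- the constant term
    have hconst : (-1 - (Nat.card K : κ)) * ∑ t : Kˣ, χ (Units.map (Algebra.norm K₀) t) = 0 := by
      let g : Kˣ →* κ := χ.comp (Units.map (Algebra.norm K₀ (S := K)))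
      have hg : ∑ t : Kˣ, χ (Units.map (Algebra.norm K₀) t) = ∑ t : Kˣ, g t := rfl
      rcases hψ with hq | hne
      · rw [hg, sum_hom_units]
        split_ifs with h1
        · have h2 : Fintype.card Kˣ + 1 = Nat.card K := by
            rw [Fintype.card_eq_nat_card, Nat.card_units]
            have := Nat.card_pos (α := K)
            omega
          have h3 : (Fintype.card Kˣ : κ) = (Nat.card K : κ) - 1 := by
            rw [← h2]
            push_cast
            ring
          have h4 : ((Nat.card k : ℕ) : κ) ^ 2 = 1 := by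
            have h5 := (CharP.natCast_eq_natCast κ r).2 hq
            push_cast at h5
            exact h5
          have h5 : (Nat.card K : κ) ^ 2 = 1 := by
            rw [hcardK, Nat.cast_pow, ← pow_mul, mul_comm (m * j) 2, pow_mul, h4, one_pow]
          rw [h3]
          linear_combination -h5
        · rw [Nat.cast_zero, mul_zero]
      · -- the sum of the character vanishes already in characteristic zero
        let G : Kˣ →* L := (Units.coeHom L).comp ((ψ K₀).comp (Units.map (Algebra.norm K₀ (S := K))))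
        have hG : G ≠ 1 := by
          intro h
          apply hne K₀ hK₀
          ext x
          obtain ⟨t, ht⟩ := FiniteField.unitsMap_norm_surjective K₀ K x
          have h3 := DFunLike.congr_fun h t
          rw [← ht, MonoidHom.one_apply, Units.val_one]
          exact h3
        have h3 := sum_hom_units_eq_zero G hG
        have h4 : res φ (∑ t : Kˣ, ((ψ K₀ (Units.map (Algebra.norm K₀) t) : Lˣ) : L)) =
            res φ 0 := congrArg (res φ) h3
        rw [res_sum φ _ _ (fun t _ => hψint _)] at h4
        have h5 : res φ (0 : L) = 0 := by simpa using res_natCast φ 0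
        rw [h5] at h4
        have h6 : ∑ t : Kˣ, χ (Units.map (Algebra.norm K₀) t) = 0 := h4
        rw [h6, mul_zero]
    -- the values modulo `r`
    have hval : ∀ t : Kˣ, res φ (((A K t : L) - (Nat.card K : L)) *
        ((ψ K₀ (Units.map (Algebra.norm K₀) t) : Lˣ) : L)) =
        (-1 - (Nat.card K : κ)) * χ (Units.map (Algebra.norm K₀) t) +
        (if aeval (t : K) P = 0 then χ (Units.map (Algebra.norm K₀) t) else 0) +
        (Nat.card k : κ) ^ (m * j) *
          (if aeval (t : K) Q = 0 then χ (Units.map (Algebra.norm K₀) t) else 0) := by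
      intro t
      rw [res_mul φ (hAint t) (hψint _), ← hχ]
      have h9 : (A K t : L) = ((A K t : L) - (Nat.card K : L)) + (Nat.card K : L) := by ring
      have h10 := congrArg (res φ) h9
      rw [res_add φ (hAint t) (int_nat _), res_natCast, res_natCast] at h10
      have h11 : res φ ((A K t : L) - (Nat.card K : L)) = (A K t : κ) - (Nat.card K : κ) := by
        rw [h10]
        ring
      rw [h11]
      obtain ⟨hA1, hA2, hA3⟩ := hA K t t.ne_zero
      have hqK : (Nat.card k : κ) ^ (m * j) = (Nat.card K : κ) := by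
        rw [hcardK, Nat.cast_pow]
      rw [hqK]
      by_cases hQt : aeval (t : K) Q = 0
      · have hPt : aeval (t : K) P ≠ 0 := by
          intro hPt
          rcases hP with rfl | ⟨hPi, hPm, -⟩
          · rw [map_one] at hPt
            exact one_ne_zero hPt
          · rcases hQ with rfl | ⟨hQi, hQm, -⟩
            · rw [map_one] at hQt
              exact one_ne_zero hQt
            · rcases hPQ with h | h | ⟨h, -⟩
              · exact hPi.not_isUnit (h ▸ isUnit_one)
              · exact hQi.not_isUnit (h ▸ isUnit_one)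
              · exact h ((minpoly_eq hPi hPm hPt).symm.trans (minpoly_eq hQi hQm hQt))
        rw [if_neg hPt, if_pos hQt]
        have h12 := (CharP.natCast_eq_natCast κ r).2 (hA3 hQt)
        push_cast at h12
        linear_combination χ (Units.map (Algebra.norm K₀) t) * h12
      · by_cases hPt : aeval (t : K) P = 0
        · rw [if_pos hPt, if_neg hQt]
          have h12 := (CharP.natCast_eq_natCast κ r).2 (hA2 hPt hQt)
          push_cast at h12
          linear_combination χ (Units.map (Algebra.norm K₀) t) * h12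
        · rw [if_neg hPt, if_neg hQt]
          have h12 := (CharP.natCast_eq_natCast κ r).2 (hA1 hPt hQt)
          push_cast at h12
          linear_combination χ (Units.map (Algebra.norm K₀) t) * h12
    rw [Finset.sum_congr rfl fun t _ => hval t, Finset.sum_add_distrib, Finset.sum_add_distrib,
      ← Finset.mul_sum, ← Finset.mul_sum, hconst, zero_add, hτsum]
    have h13 := hρsum K (by rw [hK]; exact hj)
    have h14 := hσsum K (by rw [hK]; exact hj)
    rw [hK] at h13 h14
    rw [h14, ← h13, one_pow, one_mul]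
  exact core_A φ hsums hdim (hankel_of_roots hτinj hτ0 fun j _ => rfl) c

end part

end Pool.Agent.Helper41.OP
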